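import Mathlib
import Pool.Agent.Helper33.OWN.CovAll

set_option autoImplicit false
open MeasureTheory Filter Topology Set TopologicalSpace

namespace Pool.Agent.Helper33.OWN

open Pool.Agent.Helper30.Cov

/-- splitting coordinates -/
noncomputable def spl (n r : ℕ) : (Fin (n + r) → ℝ) ≃ₗ[ℝ] (Fin n → ℝ) × (Fin r → ℝ) :=
  (LinearEquiv.funCongrLeft ℝ ℝ finSumFinEquiv).trans
    (LinearEquiv.sumArrowLequivProdArrow (Fin n) (Fin r) ℝ ℝ)

lemma spl_fst (n r : ℕ) (f : Fin (n + r) → ℝ) (i : Fin n) :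
    (spl n r f).1 i = f (Fin.castAdd r i) := rfl

lemma spl_snd (n r : ℕ) (f : Fin (n + r) → ℝ) (i : Fin r) :
    (spl n r f).2 i = f (Fin.natAdd n i) := rfl

/-- splitting Euclidean coordinates -/
noncomputable def FF (n r : ℕ) : E (n + r) ≃ₗ[ℝ] (Fin n → ℝ) × (Fin r → ℝ) :=
  (cd (n + r)).trans (spl n r)

lemma FF_fst (n r : ℕ) (f : E (n + r)) (i : Fin n) :
    (FF n r f).1 i = f (Fin.castAdd r i) := rfl

lemma FF_snd (n r : ℕ) (f : E (n + r)) (i : Fin r) :
    (FF n r f).2 i = f (Fin.natAdd n i) := rfl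

/-- the padded map -/
noncomputable def TT {n p : ℕ} [Fact p.Prime] (i0 : Fin n) (a : Fin n → ZMod p) (r : ℕ) {L : ℝ}
    (hL : L ≠ 0) : E (n + r) ≃ₗ[ℝ] E (n + r) :=
  (FF n r).trans (((QQ i0 a).prodCongr (LinearEquiv.smulOfNeZero ℝ (Fin r → ℝ) L hL)).trans
    (FF n r).symm)

lemma FF_TT {n p : ℕ} [Fact p.Prime] (i0 : Fin n) (a : Fin n → ZMod p) (r : ℕ) {L : ℝ}
    (hL : L ≠ 0) (v : E (n + r)) :
    FF n r (TT i0 a r hL v) = (QQ i0 a (FF n r v).1, L • (FF n r v).2) := by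
  unfold TT
  rw [LinearEquiv.trans_apply, LinearEquiv.trans_apply, LinearEquiv.apply_symm_apply]
  rfl

lemma det_TT {n p : ℕ} [Fact p.Prime] (i0 : Fin n) (a : Fin n → ZMod p) (r : ℕ) {L : ℝ}
    (hL : L ≠ 0) :
    LinearMap.det ((TT i0 a r hL : E (n + r) ≃ₗ[ℝ] E (n + r)) : E (n + r) →ₗ[ℝ] E (n + r))
      = p * L ^ r := by
  have h1 : ((TT i0 a r hL : E (n + r) ≃ₗ[ℝ] E (n + r)) : E (n + r) →ₗ[ℝ] E (n + r)) =
      ((FF n r).symm : (Fin n → ℝ) × (Fin r → ℝ) →ₗ[ℝ] E (n + r)) ∘ₗ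
      (((QQ i0 a : (Fin n → ℝ) ≃ₗ[ℝ] (Fin n → ℝ)) : (Fin n → ℝ) →ₗ[ℝ] (Fin n → ℝ)).prodMap
        (L • (LinearMap.id : (Fin r → ℝ) →ₗ[ℝ] (Fin r → ℝ)))) ∘ₗ
      (((FF n r).symm.symm : E (n + r) ≃ₗ[ℝ] (Fin n → ℝ) × (Fin r → ℝ)) :
        E (n + r) →ₗ[ℝ] (Fin n → ℝ) × (Fin r → ℝ)) := by
    ext v
    rfl
  rw [h1, LinearMap.det_conj, LinearMap.det_prodMap, det_QQ, LinearMap.det_smul,
    LinearMap.det_id, mul_one]
  simp

lemma norm_sq_split (n r : ℕ) (v : E (n + r)) :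
    ‖v‖ ^ 2 = ∑ i, (FF n r v).1 i ^ 2 + ∑ j, (FF n r v).2 j ^ 2 := by
  rw [EuclideanSpace.norm_sq_eq, Fin.sum_univ_add]
  simp only [Real.norm_eq_abs, sq_abs]
  rfl

lemma vol_TT {n p : ℕ} [Fact p.Prime] (i0 : Fin n) (a : Fin n → ZMod p) (r : ℕ) {L : ℝ}
    (hL : 0 < L) :
    (volume (TT i0 a r hL.ne' '' Metric.closedBall (0 : E (n + r))
      (Real.sqrt (n + r : ℕ)))).toReal ≤
      p * L ^ r * Real.exp (Real.pi * (n + r : ℕ)) := by
  have h1 : (TT i0 a r hL.ne' '' Metric.closedBall (0 : E (n + r)) (Real.sqrt (n + r : ℕ))) =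
      (((TT i0 a r hL.ne' : E (n + r) ≃ₗ[ℝ] E (n + r)) : E (n + r) →ₗ[ℝ] E (n + r)) ''
        Metric.closedBall (0 : E (n + r)) (Real.sqrt (n + r : ℕ))) := rfl
  have hp0 : (0 : ℝ) ≤ p := Nat.cast_nonneg p
  rw [h1, Measure.addHaar_image_linearMap, det_TT, ENNReal.toReal_mul,
    ENNReal.toReal_ofReal (abs_nonneg _), abs_of_nonneg (by positivity)]
  exact mul_le_mul_of_nonneg_left (vol_ball_le (n + r)) (by positivity)

/-- subspaces of smaller dimension -/
lemma exists_sub {V : Type*} [AddCommGroup V] [Module ℝ V] [FiniteDimensional ℝ V]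
    (D : Submodule ℝ V) {m : ℕ} (hm : m ≤ Module.finrank ℝ D) :
    ∃ D' : Submodule ℝ V, D' ≤ D ∧ Module.finrank ℝ D' = m := by
  obtain ⟨f, hf⟩ := exists_linearIndependent_of_le_finrank hm
  refine ⟨Submodule.span ℝ (Set.range (fun i => ((f i : D) : V))), ?_, ?_⟩
  · rw [Submodule.span_le]
    rintro _ ⟨i, rfl⟩
    exact (f i).2
  · have h2 : LinearIndependent ℝ (fun i => ((f i : D) : V)) :=
      hf.map' D.subtype (Submodule.ker_subtype D)
    rw [finrank_span_eq_card h2, Fintype.card_fin]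

/-- **the covering property of the padded ellipsoid** -/
lemma cov_pad {n p : ℕ} [Fact p.Prime] (i0 : Fin n) (a : Fin n → ZMod p) (ha : a i0 = 1)
    (r : ℕ) {L s : ℝ} (hL : 0 < L) (hs : 0 < s) (hsL : 1 ≤ s * L) (i : ℕ)
    (hi : i < n + r)
    (hth : ∀ W : Submodule ℝ (E n), Module.finrank ℝ W = min i (n - 1) + 1 →
      thL (La p a) W s ≤ 1 / 4)
    (A : AffineSubspace ℝ (E (n + r))) (hA : (A : Set (E (n + r))).Nonempty)
    (hAd : Module.finrank ℝ A.direction = (n + r) - (i + 1)) :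
    ∃ x ∈ TT i0 a r hL.ne' '' Metric.closedBall (0 : E (n + r)) (Real.sqrt (n + r : ℕ)),
      ∃ z : Fin (n + r) → ℤ, s • x + WithLp.toLp 2 (fun j => (z j : ℝ)) ∈ A := by
  classical
  have hn : 0 < n := i0.pos
  obtain ⟨q, hq⟩ := hA
  set x0 := (FF n r q).1 with hx0
  set y0 := (FF n r q).2 with hy0
  -- the horizontal directions
  set jj : (Fin n → ℝ) →ₗ[ℝ] E (n + r) :=
    ((FF n r).symm : (Fin n → ℝ) × (Fin r → ℝ) →ₗ[ℝ] E (n + r)) ∘ₗ
      LinearMap.inl ℝ (Fin n → ℝ) (Fin r → ℝ) with hjj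
  have hjj_inj : Function.Injective jj := by
    rw [hjj]
    exact (FF n r).symm.injective.comp LinearMap.inl_injective
  have hFjj : ∀ v, FF n r (jj v) = (v, 0) := by
    intro v
    rw [hjj]
    change FF n r ((FF n r).symm (v, 0)) = _
    rw [LinearEquiv.apply_symm_apply]
  set D1 : Submodule ℝ (Fin n → ℝ) := A.direction.comap jj with hD1
  have hD1fin : n - (i + 1) ≤ Module.finrank ℝ D1 := by
    set g : A.direction →ₗ[ℝ] (Fin r → ℝ) :=
      (LinearMap.snd ℝ (Fin n → ℝ) (Fin r → ℝ) ∘ₗ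
        ((FF n r : E (n + r) ≃ₗ[ℝ] (Fin n → ℝ) × (Fin r → ℝ)) :
          E (n + r) →ₗ[ℝ] (Fin n → ℝ) × (Fin r → ℝ))) ∘ₗ A.direction.subtype with hg
    have h1 := LinearMap.finrank_range_add_finrank_ker g
    have h2 : Module.finrank ℝ (LinearMap.range g) ≤ r := by
      have := Submodule.finrank_le (LinearMap.range g)
      rwa [Module.finrank_fin_fun] at this
    have h3 : Module.finrank ℝ (LinearMap.ker g) ≤ Module.finrank ℝ D1 := by
      have hmem : ∀ w : LinearMap.ker g, (FF n r (w : A.direction)).1 ∈ D1 := by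
        intro w
        rw [hD1, Submodule.mem_comap]
        have hw : (FF n r (w : A.direction)).2 = 0 := w.2
        have h4 : jj (FF n r (w : A.direction)).1 = ((w : A.direction) : E (n + r)) := by
          apply (FF n r).injective
          rw [hFjj, ← hw]
        rw [h4]
        exact (w : A.direction).2
      set φ0 : LinearMap.ker g →ₗ[ℝ] (Fin n → ℝ) := ((LinearMap.fst ℝ (Fin n → ℝ) (Fin r → ℝ) ∘ₗ
        ((FF n r : E (n + r) ≃ₗ[ℝ] (Fin n → ℝ) × (Fin r → ℝ)) :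
          E (n + r) →ₗ[ℝ] (Fin n → ℝ) × (Fin r → ℝ))) ∘ₗ
          A.direction.subtype) ∘ₗ (LinearMap.ker g).subtype with hφ0
      have hmem0 : ∀ w, φ0 w ∈ D1 := hmem
      set φ : LinearMap.ker g →ₗ[ℝ] D1 := LinearMap.codRestrict D1 φ0 hmem0 with hφ
      refine LinearMap.finrank_le_finrank_of_injective (f := φ) ?_
      rw [injective_iff_map_eq_zero]
      intro w hw
      have h5 : (FF n r (w : A.direction)).1 = 0 := congrArg Subtype.val hw
      have h6 : (FF n r (w : A.direction)).2 = 0 := w.2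
      have h7 : FF n r (w : A.direction) = 0 := Prod.ext h5 h6
      have h8 : ((w : A.direction) : E (n + r)) = 0 := by
        have := (FF n r).map_eq_zero_iff.1 h7
        exact this
      exact Subtype.ext (Subtype.ext h8)
    rw [hAd] at h1
    omega
  obtain ⟨D, hDD1, hDfin⟩ := exists_sub D1 (m := n - (min i (n - 1) + 1)) (by omega)
  set A1 : AffineSubspace ℝ (Fin n → ℝ) := AffineSubspace.mk' x0 D with hA1
  have hA1d : A1.direction = D := AffineSubspace.direction_mk' x0 D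
  obtain ⟨x, hx, z, hz⟩ := cov_mem i0 a ha hs (min i (n - 1)) (by omega) hth A1
    ⟨x0, AffineSubspace.self_mem_mk' x0 D⟩ (by rw [hA1d, hDfin])
  have hzD : (s • x + (fun j => (z j : ℝ))) - x0 ∈ D := by
    have h1 := AffineSubspace.vsub_mem_direction hz (AffineSubspace.self_mem_mk' x0 D)
    rw [hA1d] at h1
    exact h1
  obtain ⟨u, hu, rfl⟩ := hx
  rw [Metric.mem_closedBall, dist_zero_right] at hu
  have hsL0 : 0 < s * L := by linarith
  set w : Fin r → ℝ := fun j => (y0 j - ⌊y0 j⌋) / (s * L) with hw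
  have hw1 : ∀ j, w j ^ 2 ≤ 1 := by
    intro j
    have h1 : 0 ≤ w j := div_nonneg (by linarith [Int.floor_le (y0 j)]) hsL0.le
    have h2 : w j ≤ 1 := by
      rw [hw, div_le_one hsL0]
      linarith [Int.lt_floor_add_one (y0 j)]
    nlinarith
  set v : E (n + r) := (FF n r).symm (cd n u, w) with hv
  have hFv : FF n r v = (cd n u, w) := by rw [hv, LinearEquiv.apply_symm_apply]
  have hvn : ‖v‖ ^ 2 ≤ n + r := by
    rw [norm_sq_split, hFv]
    have h1 : ∑ i, (cd n u) i ^ 2 = ‖u‖ ^ 2 := by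
      rw [EuclideanSpace.norm_sq_eq]
      simp only [Real.norm_eq_abs, sq_abs]
      rfl
    have h2 : ‖u‖ ^ 2 ≤ n := by
      have := pow_le_pow_left₀ (norm_nonneg _) hu 2
      rwa [Real.sq_sqrt (Nat.cast_nonneg n)] at this
    have h3 : ∑ j, w j ^ 2 ≤ r := by
      calc ∑ j, w j ^ 2 ≤ ∑ _j : Fin r, (1 : ℝ) := Finset.sum_le_sum (fun j _ => hw1 j)
        _ = r := by simp
    simp only
    rw [h1]
    linarith
  set z' : Fin (n + r) → ℤ := Fin.append z (fun j => ⌊y0 j⌋) with hz'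
  refine ⟨TT i0 a r hL.ne' v, ⟨v, ?_, rfl⟩, z', ?_⟩
  · rw [Metric.mem_closedBall, dist_zero_right]
    apply Real.le_sqrt_of_sq_le
    push_cast
    exact hvn
  · have hF : FF n r (s • TT i0 a r hL.ne' v + WithLp.toLp 2 (fun j => (z' j : ℝ))) =
        (s • (Ph i0 a u) + (fun j => (z j : ℝ)), y0) := by
      rw [map_add, map_smul, FF_TT, hFv]
      apply Prod.ext
      · funext j
        change s * (QQ i0 a (cd n u)) j + ((z' (Fin.castAdd r j) : ℤ) : ℝ) =
          s * (Ph i0 a u) j + (z j : ℝ)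
        rw [hz', Fin.append_left]
        rfl
      · funext j
        change s * (L * w j) + ((z' (Fin.natAdd n j) : ℤ) : ℝ) = y0 j
        rw [hz', Fin.append_right, hw]
        field_simp
        ring
    have h1 : s • TT i0 a r hL.ne' v + WithLp.toLp 2 (fun j => (z' j : ℝ)) =
        jj (s • (Ph i0 a u) + (fun j => (z j : ℝ)) - x0) +ᵥ q := by
      apply (FF n r).injective
      rw [hF, vadd_eq_add, map_add, hFjj]
      apply Prod.ext
      · funext j
        simp [hx0]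
      · funext j
        simp [hy0]
    rw [h1]
    refine AffineSubspace.vadd_mem_of_mem_direction ?_ hq
    exact hDD1 hzD

end Pool.Agent.Helper33.OWN
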