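import Mathlib
import Pool.Agent.Helper55.Zono.Full

set_option autoImplicit false

open Finset Module Pool.Agent.Helper55.Zono
open scoped InnerProductSpace

namespace Pool.Agent.Helper33.OWN

variable {V : Type*} [NormedAddCommGroup V] [InnerProductSpace ℝ V] [FiniteDimensional ℝ V]

/-- Reduction to few fractional coordinates, general starting point. -/
theorem reduce_coloring' {ι : Type*} [Fintype ι] (u : ι → V) (l : ι → ℝ) (hl : ∀ i, |l i| ≤ 1) :
    ∃ x : ι → ℝ, (∀ i, |x i| ≤ 1) ∧ ∑ i, x i • u i = ∑ i, l i • u i ∧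
      (Finset.univ.filter fun i => |x i| < 1).card ≤ finrank ℝ V := by
  classical
  let S : Set (ι → ℝ) := {x | (∀ i, |x i| ≤ 1) ∧ ∑ i, x i • u i = ∑ i, l i • u i}
  have hScomp : IsCompact S := by
    have hbox : IsCompact (Set.univ.pi fun _ : ι => Set.Icc (-1 : ℝ) 1) :=
      isCompact_univ_pi fun _ => isCompact_Icc
    refine hbox.of_isClosed_subset ?_ ?_
    · refine IsClosed.and ?_ ?_
      · simp only [Set.ofPred_forall]
        exact isClosed_iInter fun i => isClosed_le (by fun_prop) continuous_const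
      · exact isClosed_eq (by fun_prop) continuous_const
    · rintro x ⟨h1, -⟩ i _
      exact abs_le.1 (h1 i)
  have hSne : S.Nonempty := ⟨l, hl, rfl⟩
  obtain ⟨x, ⟨hx1, hx2⟩, hmax⟩ := hScomp.exists_isMaxOn hSne
    (f := fun x : ι → ℝ => ∑ i, x i ^ 2) (by fun_prop)
  refine ⟨x, hx1, hx2, ?_⟩
  by_contra hcon
  rw [not_le] at hcon
  set alive := Finset.univ.filter fun i => |x i| < 1 with halive
  have hdep : ¬ LinearIndependent ℝ (fun i : alive => u i) := by
    intro hli
    have := hli.fintype_card_le_finrank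
    rw [Fintype.card_coe] at this
    omega
  obtain ⟨g, hg, i₀, hi₀⟩ := Fintype.not_linearIndependent_iff.1 hdep
  let h : ι → ℝ := fun i => if hi : i ∈ alive then g ⟨i, hi⟩ else 0
  have hhsum : ∑ i, h i • u i = 0 := by
    rw [← hg]
    have h1 : ∑ i : alive, g i • u i = ∑ i : alive, h i • u i := by
      refine Finset.sum_congr rfl fun i _ => ?_
      simp only [h, dif_pos i.2]
    rw [h1, Finset.sum_coe_sort alive (fun i => h i • u i)]
    symm
    refine Finset.sum_subset (Finset.subset_univ _) fun i _ hi => ?_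
    simp only [h, dif_neg hi, zero_smul]
  have hh0 : 0 < ∑ i, h i ^ 2 := by
    refine Finset.sum_pos' (fun i _ => sq_nonneg _) ⟨i₀, Finset.mem_univ _, ?_⟩
    have : h i₀ = g i₀ := by simp only [h, dif_pos i₀.2]
    rw [this]
    exact pow_pos (abs_pos.2 hi₀) 2 |>.trans_eq (sq_abs _)
  obtain ⟨γ, hγ, hγ'⟩ := exists_small (α := alive) (fun i => |x i|) (fun i => h i) (fun _ => 1)
    (fun i => (Finset.mem_filter.1 i.2).2)
  have hγx : ∀ s : ℝ, |s| = 1 → ∀ i, |x i + s * γ * h i| ≤ 1 := by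
    intro s hs i
    by_cases hi : i ∈ alive
    · have h1 := hγ' γ hγ le_rfl ⟨i, hi⟩
      simp only at h1
      calc |x i + s * γ * h i| ≤ |x i| + |s * γ * h i| := abs_add_le _ _
        _ = |x i| + γ * |h i| := by rw [abs_mul, abs_mul, hs, abs_of_pos hγ, one_mul]
        _ ≤ 1 := h1
    · have : h i = 0 := by simp only [h, dif_neg hi]
      rw [this, mul_zero, add_zero]
      exact hx1 i
  obtain ⟨s, hs, hs'⟩ : ∃ s : ℝ, |s| = 1 ∧ 0 ≤ s * ∑ i, x i * h i := by
    rcases le_total 0 (∑ i, x i * h i) with h1 | h1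
    · exact ⟨1, by simp, by linarith⟩
    · exact ⟨-1, by simp, by linarith⟩
  have hmem : (fun i => x i + s * γ * h i) ∈ S := by
    refine ⟨hγx s hs, ?_⟩
    calc ∑ i, (x i + s * γ * h i) • u i = ∑ i, x i • u i + (s * γ) • ∑ i, h i • u i := by
          rw [Finset.smul_sum, ← Finset.sum_add_distrib]
          refine Finset.sum_congr rfl fun i _ => ?_
          rw [smul_smul, ← add_smul]
      _ = ∑ i, l i • u i := by rw [hx2, hhsum]; simp
  have h1 := hmax hmem
  simp only [Set.mem_ofPred_eq] at h1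
  have hs2 : s ^ 2 = 1 := by rw [← sq_abs, hs]; norm_num
  have h2 : ∑ i, (x i + s * γ * h i) ^ 2 =
      ∑ i, x i ^ 2 + 2 * γ * (s * ∑ i, x i * h i) + s ^ 2 * γ ^ 2 * ∑ i, h i ^ 2 := by
    rw [Finset.mul_sum, Finset.mul_sum, Finset.mul_sum, ← Finset.sum_add_distrib,
      ← Finset.sum_add_distrib]
    refine Finset.sum_congr rfl fun i _ => ?_
    ring
  rw [h2, hs2] at h1
  have h3 : 0 < γ ^ 2 * ∑ i, h i ^ 2 := by positivity
  have h4 : 0 ≤ 2 * γ * (s * ∑ i, x i * h i) := by positivity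
  linarith

/-- The rounding theorem for zonotopes generated by nonzero vectors. -/
theorem balancing_general {E : Type*} [NormedAddCommGroup E] [InnerProductSpace ℝ E]
    [FiniteDimensional ℝ E] {κ ι : Type*} [Fintype κ] [Fintype ι] (v : κ → E)
    (hv : ∀ k, v k ≠ 0) (T : κ → ι → ℝ) (hT : ∀ k i, |T k i| ≤ 1)
    (l : ι → ℝ) (hl : ∀ i, |l i| ≤ 1) :
    ∃ (x : ι → ℝ) (Z : κ → ℝ), (∀ i, |x i| = 1) ∧
      (∀ k, |Z k| ≤ 2700 * √√((min (Fintype.card ι) (finrank ℝ E) : ℕ) * (finrank ℝ E : ℝ))) ∧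
      ∑ k, (∑ i, T k i * (x i - l i)) • v k = ∑ k, Z k • v k := by
  classical
  obtain ⟨c, hc, hc1, hc2⟩ := exists_lewis v hv
  have hr : finrank ℝ (Vc v c) ≤ finrank ℝ E := LinearMap.finrank_range_le _
  have hrR : (finrank ℝ (Vc v c) : ℝ) ≤ finrank ℝ E := by exact_mod_cast hr
  have hA3 : ∑ k, c k ≤ 4 * (finrank ℝ E : ℝ) := by
    calc ∑ k, c k ≤ ∑ k, 4 * (‖wc v c k‖ ^ 2 / c k) := by
          refine Finset.sum_le_sum fun k _ => ?_
          rw [← mul_div_assoc, le_div_iff₀ (hc k)]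
          have := hc2 k
          have h1 := (hc k).le
          nlinarith [norm_nonneg (wc v c k)]
      _ = 4 * (finrank ℝ (Vc v c) : ℝ) := by rw [← Finset.mul_sum, sum_norm_wc v c hc]
      _ ≤ 4 * (finrank ℝ E : ℝ) := by linarith
  -- reduce the number of fractional coordinates
  obtain ⟨x₀, hx₀, hx₀sum, hx₀card⟩ := reduce_coloring'
    (fun i => ∑ k, T k i • wc v c k) l hl
  obtain ⟨x, Z, hx, hZ, hlin⟩ := full_coloring (fun k => wc v c k) c hc (wc_A1 v c hc) hc1
    (finrank ℝ E : ℝ) hA3 T hT _ x₀ hx₀ rfl (by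
      have : (Finset.univ.filter fun i => |x₀ i| < 1).card ≤ finrank ℝ E := hx₀card.trans hr
      exact_mod_cast this)
  have h0 : ∑ k, (∑ i, T k i * (x₀ i - l i)) • wc v c k = 0 := by
    have e1 : ∑ i, (x₀ i - l i) • (∑ k, T k i • wc v c k) = 0 := by
      simp_rw [sub_smul]
      rw [Finset.sum_sub_distrib, hx₀sum, sub_self]
    rw [← e1]
    simp_rw [Finset.smul_sum, Finset.sum_smul, smul_smul]
    rw [Finset.sum_comm]
    refine Finset.sum_congr rfl fun i _ => Finset.sum_congr rfl fun k _ => ?_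
    rw [mul_comm]
  have h1 : ∑ k, (∑ i, T k i * (x i - l i)) • wc v c k = ∑ k, Z k • wc v c k := by
    rw [← hlin, ← sub_eq_zero, ← Finset.sum_sub_distrib, ← h0]
    refine Finset.sum_congr rfl fun k _ => ?_
    rw [← sub_smul, ← Finset.sum_sub_distrib]
    congr 1
    refine Finset.sum_congr rfl fun i _ => ?_
    ring
  refine ⟨x, Z, hx, fun k => (hZ k).trans ?_, ?_⟩
  · refine mul_le_mul_of_nonneg_left ?_ (by norm_num)
    have h2 : ((Finset.univ.filter fun i => |x₀ i| < 1).card : ℝ) ≤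
        (min (Fintype.card ι) (finrank ℝ E) : ℕ) := by
      have : (Finset.univ.filter fun i => |x₀ i| < 1).card ≤
          min (Fintype.card ι) (finrank ℝ E) := le_min (Finset.card_le_univ _) (hx₀card.trans hr)
      exact_mod_cast this
    have h3 : (0 : ℝ) ≤ finrank ℝ E := Nat.cast_nonneg _
    exact Real.sqrt_le_sqrt (Real.sqrt_le_sqrt (mul_le_mul_of_nonneg_right h2 h3))
  · -- transfer the identity from the Hilbert space of the weights
    refine ext_inner_right ℝ fun θ => ?_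
    have h2 : ⟪∑ k, (∑ i, T k i * (x i - l i)) • wc v c k, ac v c θ⟫_ℝ =
        ⟪∑ k, Z k • wc v c k, ac v c θ⟫_ℝ := by rw [h1]
    rw [sum_inner, sum_inner] at h2
    rw [sum_inner, sum_inner]
    have h3 : ∀ (k : κ) (r : ℝ), ⟪r • v k, θ⟫_ℝ = ⟪r • wc v c k, ac v c θ⟫_ℝ := by
      intro k r
      rw [vsmul, inner_wc_ac v c hc, real_inner_smul_left]
    simp only [h3]
    exact h2

end Pool.Agent.Helper33.OWN
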