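import Mathlib
import Pool.Agent.Helper33.OWN.ZonoCore

set_option autoImplicit false

open Finset Module

namespace Pool.Agent.Helper33.OWN

/-- rounding for zonotopes in an arbitrary finite-dimensional space -/
lemma round_zonotope {W : Type*} [AddCommGroup W] [Module ℝ W] [FiniteDimensional ℝ W]
    {r : ℕ} (hr : finrank ℝ W = r) {m n : ℕ} (w : Fin m → W) (t : Fin n → Fin m → ℝ)
    (ht : ∀ i j, |t i j| ≤ 1) (l : Fin n → ℝ) (hl : ∀ i, |l i| ≤ 1) :
    ∃ x : Fin n → ℝ, (∀ i, x i = 1 ∨ x i = -1) ∧ ∃ s : Fin m → ℝ, (∀ j, |s j| ≤ 1) ∧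
      ∑ i, (x i - l i) • (∑ j, t i j • w j) =
        (2700 * √√((min n r : ℕ) * (r : ℝ))) • ∑ j, s j • w j := by
  classical
  obtain ⟨e⟩ : Nonempty (W ≃ₗ[ℝ] EuclideanSpace ℝ (Fin r)) :=
    ⟨LinearEquiv.ofFinrankEq W (EuclideanSpace ℝ (Fin r)) (by
      rw [finrank_euclideanSpace, Fintype.card_fin, hr])⟩
  set R : ℝ := 2700 * √√((min n r : ℕ) * (r : ℝ)) with hR
  have hR0 : 0 ≤ R := by positivity
  -- the nonzero generators
  let κ := {j : Fin m // w j ≠ 0}
  let v' : κ → EuclideanSpace ℝ (Fin r) := fun k => e (w k)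
  have hv' : ∀ k, v' k ≠ 0 := by
    intro k h
    exact k.2 ((LinearEquiv.map_eq_zero_iff e).1 h)
  obtain ⟨x, Z, hx, hZ, hlin⟩ := balancing_general v' hv'
    (fun (k : κ) (i : Fin n) => t i k) (fun k i => ht i k) l hl
  rw [finrank_euclideanSpace, Fintype.card_fin, Fintype.card_fin] at hZ
  have hlin' : ∑ k : κ, (∑ i, t i k * (x i - l i)) • w k = ∑ k : κ, Z k • w k := by
    apply e.injective
    rw [map_sum, map_sum]
    simp only [map_smul]
    exact hlin
  have hsub : ∀ f : Fin m → ℝ, ∑ j, f j • w j = ∑ k : κ, f k • w k := by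
    intro f
    have h2 : ∑ j ∈ (Finset.univ.filter fun j => w j ≠ 0), f j • w j =
        ∑ k : κ, f k • w k := Finset.sum_subtype _ (fun i => by simp) _
    rw [← h2]
    symm
    refine Finset.sum_subset (Finset.subset_univ _) fun j _ hj => ?_
    have : w j = 0 := by
      by_contra hne
      exact hj (Finset.mem_filter.2 ⟨Finset.mem_univ _, hne⟩)
    rw [this, smul_zero]
  refine ⟨x, fun i => ?_, fun j => if h : w j ≠ 0 then Z ⟨j, h⟩ / R else 0, fun j => ?_, ?_⟩
  · have := hx i
    rcases le_total 0 (x i) with h | h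
    · left; rwa [abs_of_nonneg h] at this
    · right; rw [abs_of_nonpos h] at this; linarith
  · dsimp only
    split_ifs with h
    · rw [abs_div, abs_of_nonneg hR0]
      exact div_le_one_of_le₀ (hZ ⟨j, h⟩) hR0
    · simp
  · calc ∑ i, (x i - l i) • (∑ j, t i j • w j) = ∑ j, (∑ i, t i j * (x i - l i)) • w j := by
          simp_rw [Finset.smul_sum, Finset.sum_smul, smul_smul]
          rw [Finset.sum_comm]
          refine Finset.sum_congr rfl fun j _ => Finset.sum_congr rfl fun i _ => ?_
          rw [mul_comm]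
      _ = ∑ k : κ, (∑ i, t i k * (x i - l i)) • w k := hsub _
      _ = ∑ k : κ, Z k • w k := hlin'
      _ = _ := by
          have h3 := hsub (fun j => if h : w j ≠ 0 then Z ⟨j, h⟩ / R else 0)
          rw [h3, Finset.smul_sum]
          refine Finset.sum_congr rfl fun k _ => ?_
          simp only [dif_pos k.2]
          rw [smul_smul]
          congr 1
          rcases eq_or_lt_of_le hR0 with h0 | h0
          · have h5 := hZ k
            rw [← hR, ← h0] at h5
            have h6 : Z k = 0 := abs_nonpos_iff.1 h5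
            have h7 : Z ⟨k.1, k.2⟩ = Z k := rfl
            rw [h7, h6, zero_div, mul_zero]
          · have h7 : Z ⟨k.1, k.2⟩ = Z k := rfl
            rw [h7, mul_div_cancel₀ _ h0.ne']

end Pool.Agent.Helper33.OWN
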